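import Pool.Agent.V11221.PyrF

/-!
# MP_5a76a9_gt, Q1 and Q2: both embeddings hold

The inclusion of the space of pyramids `Π` (weak topology) in the space of closed subsets of
`(𝒳, □)` is a topological embedding both for the Fell topology and for the Wijsman topology.

All objects are defined in `Pool/Agent/V11221/PyrA.lean` (mm-spaces, box distance, classes),
`PyrB.lean` (domination) and `PyrF.lean` (pyramids, weak convergence, the two topologies).
The weak topology is the compact metrizable topology on `Π` whose convergent sequences are exactly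
the weakly convergent ones; the theorem is stated for every topology with this property.
-/

open MeasureTheory Set Filter Topology ProbabilityTheory
open Pool.Agent.V11221.Pyr

namespace Pool.Agent.Results.MP_5a76a9_gt.FellAndWijsmanEmbeddings

lemma embed_of (T : TopologicalSpace Pyramid) (hc : @CompactSpace Pyramid T)
    (τ : TopologicalSpace ClosedSets) (hcont : @Continuous _ _ T τ incl)
    (hsep : ∀ P Q : Pyramid, P ≠ Q → ∃ A B : Set ClosedSets, @IsOpen _ τ A ∧ @IsOpen _ τ B ∧
      incl P ∈ A ∧ incl Q ∈ B ∧ ∀ R : Pyramid, incl R ∈ A → incl R ∉ B) :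
    @Topology.IsEmbedding _ _ T τ incl := by
  have h2 : @T2Space Pyramid (TopologicalSpace.induced incl τ) := by
    letI := TopologicalSpace.induced incl τ
    constructor
    intro P Q hPQ
    obtain ⟨A, B, hA, hB, hPA, hQB, hAB⟩ := hsep P Q hPQ
    refine ⟨incl ⁻¹' A, incl ⁻¹' B, ⟨A, hA, rfl⟩, ⟨B, hB, rfl⟩, hPA, hQB, ?_⟩
    rw [Set.disjoint_left]
    intro R hR hR'
    exact hAB R hR hR'
  have hle : T ≤ TopologicalSpace.induced incl τ := continuous_iff_le_induced.1 hcont
  have hge : TopologicalSpace.induced incl τ ≤ T := by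
    intro U hU
    have h3 : @IsClosed _ T Uᶜ := by
      letI := T
      exact hU.isClosed_compl
    have h4 : @IsCompact _ T Uᶜ := by
      letI := T
      haveI := hc
      exact h3.isCompact
    have h5 : @IsCompact _ (TopologicalSpace.induced incl τ) Uᶜ := by
      have h6 : @Continuous _ _ T (TopologicalSpace.induced incl τ) id := continuous_id_iff_le.2 hle
      have h7 := @IsCompact.image _ _ T (TopologicalSpace.induced incl τ) _ _ h4 h6
      rwa [image_id] at h7
    have h8 : @IsClosed _ (TopologicalSpace.induced incl τ) Uᶜ :=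
      @IsCompact.isClosed _ (TopologicalSpace.induced incl τ) h2 _ h5
    letI := TopologicalSpace.induced incl τ
    exact isClosed_compl_iff.1 h8
  have heq : T = TopologicalSpace.induced incl τ := le_antisymm hle hge
  letI := T
  letI := τ
  exact ⟨⟨heq⟩, incl_injective⟩

/-- Both inclusions are topological embeddings. -/
theorem result (T : TopologicalSpace Pyramid) (hc : @CompactSpace Pyramid T)
    (hm : @TopologicalSpace.MetrizableSpace Pyramid T)
    (hw : ∀ (P : ℕ → Pyramid) (Q : Pyramid),
      Tendsto P atTop (@nhds _ T Q) ↔ WeaklyConverges P Q) :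
    @Topology.IsEmbedding _ _ T fellTopology incl ∧
      @Topology.IsEmbedding _ _ T wijsmanTopology incl := by
  have hcW : @Continuous _ _ T wijsmanTopology incl := by
    letI := T
    haveI := hm
    unfold wijsmanTopology
    rw [continuous_iInf_rng]
    intro x
    rw [continuous_induced_rng]
    apply SeqContinuous.continuous
    intro P Q hPQ
    exact tendsto_boxToSet ((hw P Q).1 hPQ) x
  have hcF : @Continuous _ _ T fellTopology incl := continuous_le_rng wijsman_le_fell hcW
  have hsep : ∀ P Q : Pyramid, P ≠ Q → ∃ A B : Set ClosedSets, @IsOpen _ fellTopology A ∧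
      @IsOpen _ fellTopology B ∧ incl P ∈ A ∧ incl Q ∈ B ∧
      ∀ R : Pyramid, incl R ∈ A → incl R ∉ B := by
    intro P Q hPQ
    by_cases h : ∃ x, x ∈ P.toSet ∧ x ∉ Q.toSet
    · obtain ⟨x, hx, hx'⟩ := h
      exact fell_separation hx hx'
    · by_cases h' : ∃ x, x ∈ Q.toSet ∧ x ∉ P.toSet
      · obtain ⟨x, hx, hx'⟩ := h'
        obtain ⟨A, B, hA, hB, hQA, hPB, hAB⟩ := fell_separation hx hx'
        exact ⟨B, A, hB, hA, hPB, hQA, fun R hR hR' => hAB R hR' hR⟩
      · exfalso
        apply hPQ
        push Not at h h'
        have : P.toSet = Q.toSet := Set.Subset.antisymm h h'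
        cases P; cases Q
        simp_all
  refine ⟨embed_of T hc _ hcF hsep, embed_of T hc _ hcW ?_⟩
  intro P Q hPQ
  obtain ⟨A, B, hA, hB, h1, h2, h3⟩ := hsep P Q hPQ
  exact ⟨A, B, wijsman_le_fell A hA, wijsman_le_fell B hB, h1, h2, h3⟩

end Pool.Agent.Results.MP_5a76a9_gt.FellAndWijsmanEmbeddings
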